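import Pool.Agent.Helper69.MF.StB

/-!
# Project MF, module G0: points on the faces near a singular point are regular
-/

set_option autoImplicit false

open Set Topology Filter MeasureTheory
open Pool.Agent.Helper31.CY Pool.Agent.Helper69.MF

namespace Pool.Agent.Helper53.MF

theorem circ_closed (r h : ℝ) : IsClosed (circ r h) := by
  have h1 : Continuous fun x : E3 => x 0 ^ 2 + x 1 ^ 2 := by fun_prop
  have h2 : Continuous fun x : E3 => x 2 := by fun_prop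
  exact (isClosed_eq h1 continuous_const).inter (isClosed_eq h2 continuous_const)

theorem dt_sub' (x y n : E3) : dt (x - y) n = dt x n - dt y n := by
  simp only [dt, PiLp.sub_apply]; ring

theorem dt_neg' (x n : E3) : dt (-x) n = -dt x n := by
  simp only [dt, PiLp.neg_apply]; ring

theorem dt_smul' (l : ℝ) (x n : E3) : dt (l • x) n = l * dt x n := by
  simp only [dt, PiLp.smul_apply, smul_eq_mul]; ring

theorem dt_cont' (n : E3) : Continuous fun x : E3 => dt x n := by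
  unfold dt; fun_prop

theorem equiv_of_inj (A : E3 →L[ℝ] E3) (hA : ∀ v, v ≠ 0 → A v ≠ 0) :
    ∃ e : E3 ≃L[ℝ] E3, (e : E3 →L[ℝ] E3) = A := by
  have hinj : Function.Injective (A : E3 →ₗ[ℝ] E3) := by
    rw [← LinearMap.ker_eq_bot, LinearMap.ker_eq_bot']
    intro v hv
    by_contra h
    exact hA v h hv
  refine ⟨(LinearEquiv.ofInjectiveEndo (A : E3 →ₗ[ℝ] E3) hinj).toContinuousLinearEquiv, ?_⟩
  ext v
  rfl

/-- contingent cone in a chart -/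
theorem tc_chart (hTC : StTC1) (S K : Set E3) (q : E3) (Φ : E3 → E3) (U : Set E3)
    (hU : IsOpen U) (hq : q ∈ U) (hΦ : ContDiffOn ℝ 1 Φ U)
    (hinj : ∀ v, v ≠ 0 → fderiv ℝ Φ q v ≠ 0) (V : Set E3) (hV : V ∈ 𝓝 q)
    (hS : ∀ x ∈ V, x ∈ S ↔ Φ x - Φ q ∈ K) (hK : IsClosed K)
    (hc : ∀ l : ℝ, 0 ≤ l → ∀ y ∈ K, l • y ∈ K) :
    ∀ v, v ∈ TCn S q ↔ fderiv ℝ Φ q v ∈ K := by
  obtain ⟨e, he⟩ := equiv_of_inj (fderiv ℝ Φ q) hinj
  have hat : ContDiffAt ℝ 1 Φ q := hΦ.contDiffAt (hU.mem_nhds hq)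
  have hst : HasStrictFDerivAt Φ (e : E3 →L[ℝ] E3) q := by
    rw [he]; exact hat.hasStrictFDerivAt (by norm_num)
  have hst2 : HasStrictFDerivAt (fun x => Φ x - Φ q) (e : E3 →L[ℝ] E3) q :=
    hst.sub_const (Φ q)
  have := hTC E3 E3 S q (fun x => Φ x - Φ q) e K V hst2 (sub_self _) hV hS hK hc
  intro v
  rw [this v, ← he]
  rfl

theorem y_asym (hY : StMDY) : ∃ u : E3, u ∈ Ycone ∧ -u ∉ Ycone := by
  obtain ⟨-, -, -, -, -, h1, h2, -⟩ := hY
  refine ⟨pt 1 0 0, ?_, ?_⟩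
  · show ((pt 1 0 0 : E3) 0, (pt 1 0 0 : E3) 1) ∈ tri
    simpa [pt] using h1
  · intro h
    apply h2
    have h' : ((-(pt 1 0 0 : E3)) 0, (-(pt 1 0 0 : E3)) 1) ∈ tri := h
    simpa [pt] using h'

theorem t_asym : ∃ u : E3, u ∈ Tcone ∧ -u ∉ Tcone := by
  refine ⟨tv 0, ⟨0, 1, by decide, 1, 0, by norm_num, le_refl _, by simp⟩, ?_⟩
  rintro ⟨i, j, hij, s, t, hs, ht, h⟩
  have h0 := congrArg (fun v : E3 => v 0) h
  have h1 := congrArg (fun v : E3 => v 1) h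
  have h2 := congrArg (fun v : E3 => v 2) h
  fin_cases i <;> fin_cases j <;> simp [tv, pt] at h0 h1 h2 hij <;> linarith

/-- a point with a symmetric contingent cone is not modelled on an asymmetric cone -/
theorem not_model (hTC : StTC1) (S K : Set E3) (hK : IsClosed K)
    (hc : ∀ l : ℝ, 0 ≤ l → ∀ y ∈ K, l • y ∈ K) (q : E3)
    (hsym : ∀ v ∈ TCn S q, -v ∈ TCn S q) (hK2 : ∃ u : E3, u ∈ K ∧ -u ∉ K) :
    ¬ ModelAt S K q := by
  rintro ⟨Ψ, V, hV, hqV, hΨ, hΨq, hiso, hS⟩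
  have hinj : ∀ v, v ≠ 0 → fderiv ℝ Ψ q v ≠ 0 := by
    intro v hv h
    have := hiso v
    rw [h, norm_zero] at this
    exact hv (norm_eq_zero.mp this.symm)
  have htc := tc_chart hTC S K q Ψ V hV hqV hΨ hinj V (hV.mem_nhds hqV)
    (fun x hx => by rw [hΨq, sub_zero]; exact hS x hx) hK hc
  obtain ⟨e, he⟩ := equiv_of_inj (fderiv ℝ Ψ q) hinj
  obtain ⟨u, hu, hnu⟩ := hK2
  have h1 : fderiv ℝ Ψ q (e.symm u) = u := by rw [← he]; simp
  have h2 : e.symm u ∈ TCn S q := (htc _).mpr (by rw [h1]; exact hu)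
  have h3 := (htc _).mp (hsym _ h2)
  rw [map_neg, h1] at h3
  exact hnu h3

theorem hG0 : StTC1 → StMDY → StMDT → StG0 := by
  intro hTC hY hT r0 r1 h S hM M m F N hMM hF p hp hpΓ Φ U hU hpU hΦ hΦp hiso hS
  have hΓ : IsClosed (circ r0 0 ∪ circ r1 h) := (circ_closed r0 0).union (circ_closed r1 h)
  have hcont : ContinuousOn (fderiv ℝ Φ) U := hΦ.continuousOn_fderiv_of_isOpen hU (le_refl _)
  have hcp : ContinuousAt (fderiv ℝ Φ) p := hcont.continuousAt (hU.mem_nhds hpU)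
  have e1 : ∀ᶠ q in 𝓝 p, q ∈ U := hU.mem_nhds hpU
  have e2 : ∀ᶠ q in 𝓝 p, q ∉ circ r0 0 ∪ circ r1 h := hΓ.isOpen_compl.mem_nhds hpΓ
  have e3 : ∀ᶠ q in 𝓝 p, dist (fderiv ℝ Φ q) (fderiv ℝ Φ p) < 1 / 2 :=
    hcp (Metric.ball_mem_nhds _ (by norm_num))
  obtain ⟨ε, hε, hball⟩ := Metric.eventually_nhds_iff.mp (e1.and (e2.and e3))
  refine ⟨ε, hε, ?_⟩
  intro q hq hqp
  obtain ⟨hqU, hqΓ, hd⟩ := hball hqp
  have hinj : ∀ v, v ≠ 0 → fderiv ℝ Φ q v ≠ 0 := by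
    intro v hv h0
    have h1 : ‖(fderiv ℝ Φ q - fderiv ℝ Φ p) v‖ ≤ 1 / 2 * ‖v‖ := by
      refine (ContinuousLinearMap.le_opNorm _ _).trans ?_
      rw [dist_eq_norm] at hd
      exact mul_le_mul_of_nonneg_right hd.le (norm_nonneg _)
    rw [ContinuousLinearMap.sub_apply, h0, zero_sub, norm_neg, hiso] at h1
    have h2 : 0 < ‖v‖ := norm_pos_iff.mpr hv
    linarith
  refine ⟨hqU, hqΓ, hinj, ?_⟩
  intro i hi
  obtain ⟨hmem, δ, hδ, hnear⟩ := hF.2.1 i (Φ q) hi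
  have hzero : dt (Φ q) (N i) = 0 := (hnear (Φ q) (by rw [dist_self]; exact hδ)).mp hmem
  have hcq : ContinuousAt Φ q := (hΦ.continuousOn).continuousAt (hU.mem_nhds hqU)
  have hV : U ∩ Φ ⁻¹' Metric.ball (Φ q) δ ∈ 𝓝 q :=
    Filter.inter_mem (hU.mem_nhds hqU) (hcq (Metric.ball_mem_nhds _ hδ))
  have htc := tc_chart hTC S {y | dt y (N i) = 0} q Φ U hU hqU hΦ hinj _ hV
    (by
      rintro x ⟨hxU, hxb⟩
      rw [hS x hxU, hnear (Φ x) hxb, mem_setOf_eq, dt_sub', hzero, sub_zero])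
    (isClosed_eq (dt_cont' (N i)) continuous_const)
    (by
      intro l _ y hy
      rw [mem_setOf_eq] at hy ⊢
      rw [dt_smul', hy, mul_zero])
  have hsym : ∀ v ∈ TCn S q, -v ∈ TCn S q := by
    intro v hv
    have h1 := (htc v).mp hv
    rw [mem_setOf_eq] at h1
    refine (htc (-v)).mpr ?_
    rw [mem_setOf_eq, map_neg, dt_neg', h1, neg_zero]
  refine ⟨?_, htc⟩
  rcases hM.int q hq hqΓ with h1 | h1 | h1
  · exact h1
  · exact absurd h1 (not_model hTC S Ycone hY.1 hY.2.1 q hsym (y_asym hY))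
  · exact absurd h1 (not_model hTC S Tcone hT.1 hT.2.1 q hsym t_asym)

end Pool.Agent.Helper53.MF
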